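import Pool.Agent.Lib.MP_6c430b_al.Universal

/-!
# The triviality problem for diagram groups is undecidable

There is one fixed finite semigroup presentation `P` such that no algorithm decides, given a non-empty
word `w` over its alphabet, whether the diagram group `D(P, w)` is non-trivial.
-/

set_option autoImplicit false

namespace Pool.Agent.Results.MP_6c430b_al.FixedPresentationUndecidable

open Pool.Agent.Lib.MP_6c430b_al

/-- There are a finite alphabet `{0, ..., N - 1}` and a finite semigroup presentation `P` over it
(without relations `u = u` and without a relation listed in both directions) such that no computable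
function on words decides, for all non-empty words `w`, whether the diagram group `D(P, w)`, the
fundamental group at `w` of the Squier complex of `P`, is non-trivial. -/
theorem result : ∃ (N : ℕ) (P : Presentation (Fin N)),
    (∀ r ∈ P.rels, r.1 ≠ r.2 ∧ (r.2, r.1) ∉ P.rels) ∧
    ¬ ∃ f : List (Fin N) → Bool, Computable f ∧
      ∀ w : Vertex P, (f w.1 = true ↔ Nontrivial (DiagramGroup P w)) :=
  main

end Pool.Agent.Results.MP_6c430b_al.FixedPresentationUndecidable
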